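import Pool.Agent.Helper66_BN.Stmts

/-!
# Squad PP, part BN: Burnside's theorem (a tool for BCN)
-/

open scoped BigOperators

noncomputable section

namespace Pool.Agent.PP.BN.H99

open Pool.Agent.PP

variable {F H : Type} [Field F] [Group H]

/-- A subspace is invariant. -/
def Inv {m : ℕ} (ρ : H →* Matrix (Fin m) (Fin m) F) (W : Submodule F (Fin m → F)) : Prop :=
  ∀ g, ∀ w ∈ W, (ρ g).mulVec w ∈ W

/-- Burnside's theorem. -/
theorem irr_of_inv [IsAlgClosed F] {k : ℕ} (σ : H →* Matrix (Fin k) (Fin k) F) (hk : 0 < k)
    (h : ∀ W : Submodule F (Fin k → F), Inv σ W → W = ⊥ ∨ W = ⊤) : IsIrr σ := by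
  classical
  refine ⟨hk, ?_⟩
  set V := Fin k → F
  let S : Subalgebra F (Module.End F V) :=
    Algebra.adjoin F (Set.range fun g => Matrix.toLin' (σ g))
  have hV : Nontrivial V := by
    have : Nonempty (Fin k) := ⟨⟨0, hk⟩⟩
    exact Function.nontrivial
  have hsim : IsSimpleModule S V := by
    rw [isSimpleModule_iff]
    refine { exists_pair_ne := ⟨⊥, ⊤, ?_⟩, eq_bot_or_eq_top := ?_ }
    · intro h0
      obtain ⟨v, hv⟩ := exists_ne (0 : V)
      apply hv
      have h1 : v ∈ (⊤ : Submodule S V) := trivial
      rw [← h0] at h1
      exact h1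
    · intro W
      let W' : Submodule F V := W.restrictScalars F
      have hW' : Inv σ W' := by
        intro g w hw
        have h1 : (⟨Matrix.toLin' (σ g), Algebra.subset_adjoin ⟨g, rfl⟩⟩ : S) • w ∈ W :=
          W.smul_mem _ hw
        have h2 : (⟨Matrix.toLin' (σ g), Algebra.subset_adjoin ⟨g, rfl⟩⟩ : S) • w =
            (σ g).mulVec w := by
          change (Matrix.toLin' (σ g)) w = _
          rw [Matrix.toLin'_apply]
        rw [h2] at h1
        exact h1
      rcases h W' hW' with h1 | h1
      · left
        ext v
        have h2 : v ∈ W' ↔ v ∈ (⊥ : Submodule F V) := by rw [h1]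
        exact h2
      · right
        ext v
        have h2 : v ∈ W' ↔ v ∈ (⊤ : Submodule F V) := by rw [h1]
        exact h2
  have hschur := IsSimpleModule.algebraMap_end_bijective_of_isAlgClosed (A := S) (V := V) F
  have htop : ∀ T : Module.End F V, T ∈ S := by
    intro T
    let f : Module.End (Module.End S V) V :=
      { toFun := T
        map_add' := T.map_add
        map_smul' := by
          intro φ v
          obtain ⟨c, rfl⟩ := hschur.2 φ
          change T (c • v) = c • T v
          exact T.map_smul c v }
    obtain ⟨r, hr⟩ := jacobson_density (R := S) (M := V) f (Finset.univ.image fun i : Fin k => (Pi.single i (1 : F) : V))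
    have h1 : T = (r : Module.End F V) := by
      apply LinearMap.pi_ext'
      intro i
      apply LinearMap.ext_ring
      exact hr _ (Finset.mem_image_of_mem _ (Finset.mem_univ i))
    rw [h1]
    exact r.2
  have hspan : ∀ T ∈ S, LinearMap.toMatrix' T ∈ Submodule.span F (Set.range σ) := by
    intro T hT
    induction hT using Algebra.adjoin_induction with
    | mem x hx =>
      obtain ⟨g, rfl⟩ := hx
      change LinearMap.toMatrix' (Matrix.toLin' (σ g)) ∈ _
      rw [LinearMap.toMatrix'_toLin']
      exact Submodule.subset_span ⟨g, rfl⟩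
    | algebraMap c =>
      have h1 : LinearMap.toMatrix' (algebraMap F (Module.End F V) c) = c • σ 1 := by
        rw [map_one, Algebra.algebraMap_eq_smul_one, map_smul, LinearMap.toMatrix'_one]
      rw [h1]
      exact Submodule.smul_mem _ _ (Submodule.subset_span ⟨1, rfl⟩)
    | add x y _ _ hx hy =>
      rw [map_add]
      exact Submodule.add_mem _ hx hy
    | mul x y _ _ hx hy =>
      rw [LinearMap.toMatrix'_mul]
      have h1 : ∀ A ∈ Submodule.span F (Set.range σ), ∀ B ∈ Submodule.span F (Set.range σ),
          A * B ∈ Submodule.span F (Set.range σ) := by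
        intro A hA B hB
        induction hA using Submodule.span_induction with
        | mem a ha =>
          obtain ⟨g, rfl⟩ := ha
          induction hB using Submodule.span_induction with
          | mem b hb =>
            obtain ⟨g', rfl⟩ := hb
            rw [← map_mul]
            exact Submodule.subset_span ⟨_, rfl⟩
          | zero => rw [mul_zero]; exact Submodule.zero_mem _
          | add b b' _ _ h1 h2 => rw [mul_add]; exact Submodule.add_mem _ h1 h2
          | smul c b _ h1 => rw [mul_smul_comm]; exact Submodule.smul_mem _ _ h1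
        | zero => rw [zero_mul]; exact Submodule.zero_mem _
        | add a a' _ _ h1 h2 => rw [add_mul]; exact Submodule.add_mem _ h1 h2
        | smul c a _ h1 => rw [smul_mul_assoc]; exact Submodule.smul_mem _ _ h1
      exact h1 _ hx _ hy
  rw [eq_top_iff]
  intro A _
  have h1 := hspan (Matrix.toLin' A) (htop _)
  rwa [LinearMap.toMatrix'_toLin'] at h1

end Pool.Agent.PP.BN.H99
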